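import Pool.Agent.Helper53.TS.Far

/-!
# The volume of a main cell
-/

set_option autoImplicit false

namespace Pool.Agent.Helper53.TS

open MeasureTheory Set
open scoped ENNReal
open Pool.Agent.Helper84.TS

/-- the section function on the level line `x⁺ + y⁺ = s`; `p`, `q` the entries of the row in the
directions `x`, `y`, and `r` the entry of the section coordinate -/
noncomputable def psi (p q r s x : ℝ) : ℝ≥0∞ :=
  ENNReal.ofReal (2 - r - s - max (p - x) 0 - max (x - s + q) 0)

theorem measurable_psi (p q r : ℝ) : Measurable (fun u : ℝ × ℝ => psi p q r u.1 u.2) := by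
  unfold psi
  fun_prop

theorem psi_int {p q r s : ℝ} (hH : 0 ≤ 2 - p - q - r) :
    ∫⁻ x, psi p q r s x = ENNReal.ofReal ((2 - p - q - r) * max (2 - r - s) 0) := by
  have h1 : ∫⁻ x, psi p q r s x = ∫⁻ x, psi p q r s (x + (s - q)) :=
    (lintegral_add_right_eq_self (fun x => psi p q r s x) (s - q)).symm
  have h2 : ∀ x : ℝ, psi p q r s (x + (s - q)) =
      ENNReal.ofReal ((2 - r - s - max (p - (s - q)) 0) - dl (p - (s - q)) x) := by
    intro x
    unfold psi dl
    congr 1
    have e1 : p - (x + (s - q)) = p - (s - q) - x := by ring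
    have e2 : x + (s - q) - s + q = x := by ring
    rw [e1, e2]
    ring
  rw [h1]
  simp only [h2]
  rw [lint1]
  congr 1
  rcases le_total (p - (s - q)) 0 with h | h
  · rw [max_eq_right h, abs_of_nonpos h, sub_zero]
    rcases le_total (2 - r - s) 0 with h3 | h3
    · rw [max_eq_right h3]
      ring
    · rw [max_eq_left h3]
      ring
  · rw [max_eq_left h, abs_of_nonneg h]
    have e : 2 - r - s - (p - (s - q)) = 2 - p - q - r := by ring
    rw [e, max_eq_left hH, max_eq_left (by linarith : 0 ≤ 2 - r - s)]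
    ring

/-- the integral of the section function over the corner `x⁺ + y⁺ ≥ 1` -/
theorem corner {p q r : ℝ} (hp : p ≤ 1) (hq0 : 0 ≤ q) (hq : q ≤ 1) (hr : r ≤ 1)
    (hH : 0 ≤ 2 - p - q - r) :
    ENNReal.ofReal ((2 - p - q - r) * (1 - r) ^ 2 / 2) ≤
      ∫⁻ x, ∫⁻ y, if 1 ≤ max x 0 + max y 0 then
        ENNReal.ofReal (2 - r - (max x 0 + max y 0) - (max (p - x) 0 + max (q - y) 0)) else 0 := by
  classical
  set T1 : ℝ → ℝ → ℝ≥0∞ := fun x y => if x ≤ 0 ∧ 1 ≤ y then psi p q r y x else 0 with hT1
  set T2 : ℝ → ℝ → ℝ≥0∞ := fun x y => if 0 < x ∧ 0 < y ∧ 1 ≤ x + y then psi p q r (x + y) x else 0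
    with hT2
  set T3 : ℝ → ℝ → ℝ≥0∞ := fun x y => if 1 ≤ x ∧ y ≤ 0 then psi p q r x (x - y) else 0 with hT3
  have m1 : Measurable (Function.uncurry T1) := by
    apply Measurable.ite
    · exact (measurableSet_le measurable_fst measurable_const).inter
        (measurableSet_le measurable_const measurable_snd)
    · exact (measurable_psi p q r).comp (measurable_snd.prodMk measurable_fst)
    · exact measurable_const
  have m2 : Measurable (Function.uncurry T2) := by
    apply Measurable.ite
    · exact (measurableSet_lt measurable_const measurable_fst).inter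
        ((measurableSet_lt measurable_const measurable_snd).inter
        (measurableSet_le measurable_const (measurable_fst.add measurable_snd)))
    · exact (measurable_psi p q r).comp ((measurable_fst.add measurable_snd).prodMk measurable_fst)
    · exact measurable_const
  have m3 : Measurable (Function.uncurry T3) := by
    apply Measurable.ite
    · exact (measurableSet_le measurable_const measurable_fst).inter
        (measurableSet_le measurable_snd measurable_const)
    · exact (measurable_psi p q r).comp (measurable_fst.prodMk (measurable_fst.sub measurable_snd))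
    · exact measurable_const
  -- the sum of the three pieces is below
  have hpt : ∀ x y : ℝ, T1 x y + (T2 x y + T3 x y) ≤ if 1 ≤ max x 0 + max y 0 then
        ENNReal.ofReal (2 - r - (max x 0 + max y 0) - (max (p - x) 0 + max (q - y) 0)) else 0 := by
    intro x y
    simp only [hT1, hT2, hT3]
    rcases le_or_gt x 0 with hx | hx
    · rw [if_neg (fun h => absurd h.1 (not_lt.2 hx) : ¬ (0 < x ∧ 0 < y ∧ 1 ≤ x + y)),
        if_neg (fun h => by linarith [h.1] : ¬ (1 ≤ x ∧ y ≤ 0)), add_zero, add_zero]
      rcases le_or_gt 1 y with hy | hy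
      · rw [if_pos ⟨hx, hy⟩, max_eq_right hx, max_eq_left (by linarith : 0 ≤ y),
          if_pos (by linarith)]
        unfold psi
        apply ENNReal.ofReal_le_ofReal
        rw [max_eq_right (by linarith : q - y ≤ 0), max_eq_right (by linarith : x - y + q ≤ 0)]
        linarith
      · rw [if_neg (fun h => by linarith [h.2])]
        exact bot_le
    · rw [if_neg (fun h => absurd h.1 (not_le.2 hx) : ¬ (x ≤ 0 ∧ 1 ≤ y)), zero_add]
      rcases le_or_gt y 0 with hy | hy
      · rw [if_neg (fun h => absurd h.2.1 (not_lt.2 hy)), zero_add]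
        rcases le_or_gt 1 x with hx1 | hx1
        · rw [if_pos ⟨hx1, hy⟩, max_eq_left hx.le, max_eq_right hy, if_pos (by linarith)]
          unfold psi
          apply ENNReal.ofReal_le_ofReal
          rw [max_eq_right (by linarith : p - (x - y) ≤ 0),
            max_eq_right (by linarith : p - x ≤ 0)]
          have e : x - y - x + q = q - y := by ring
          rw [e]
          linarith
        · rw [if_neg (fun h => by linarith [h.1])]
          exact bot_le
      · rw [if_neg (fun h => absurd h.2 (not_le.2 hy) : ¬ (1 ≤ x ∧ y ≤ 0)), add_zero]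
        rw [max_eq_left hx.le, max_eq_left hy.le]
        rcases le_or_gt 1 (x + y) with h | h
        · rw [if_pos ⟨hx, hy, h⟩, if_pos h]
          unfold psi
          apply ENNReal.ofReal_le_ofReal
          have e : x - (x + y) + q = q - y := by ring
          rw [e]
          linarith
        · rw [if_neg (fun h' => by linarith [h'.2.2])]
          exact bot_le
  have hsum : (∫⁻ x, ∫⁻ y, T1 x y) + ((∫⁻ x, ∫⁻ y, T2 x y) + ∫⁻ x, ∫⁻ y, T3 x y) ≤
      ∫⁻ x, ∫⁻ y, if 1 ≤ max x 0 + max y 0 then
        ENNReal.ofReal (2 - r - (max x 0 + max y 0) - (max (p - x) 0 + max (q - y) 0)) else 0 := by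
    have c1 : Measurable (fun x => ∫⁻ y, T1 x y) := m1.lintegral_prod_right'
    have c2 : Measurable (fun x => ∫⁻ y, T2 x y) := m2.lintegral_prod_right'
    rw [← lintegral_add_left c2, ← lintegral_add_left c1]
    apply lintegral_mono
    intro x
    have a1 : Measurable (T1 x) := m1.comp measurable_prodMk_left
    have a2 : Measurable (T2 x) := m2.comp measurable_prodMk_left
    calc (∫⁻ y, T1 x y) + ((∫⁻ y, T2 x y) + ∫⁻ y, T3 x y)
        = ∫⁻ y, (T1 x y + (T2 x y + T3 x y)) := by
          rw [lintegral_add_left a1, lintegral_add_left a2]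
      _ ≤ _ := lintegral_mono fun y => hpt x y
  refine le_trans ?_ hsum
  -- the three pieces in the coordinates of the level lines
  have e1 : ∫⁻ x, ∫⁻ y, T1 x y = ∫⁻ s, ∫⁻ x, if x ≤ 0 ∧ 1 ≤ s then psi p q r s x else 0 :=
    lintegral_lintegral_swap m1.aemeasurable
  have e2 : ∫⁻ x, ∫⁻ y, T2 x y = ∫⁻ s, ∫⁻ x, if 0 < x ∧ 0 < s - x ∧ 1 ≤ s then
      psi p q r s x else 0 := by
    have e0 : ∫⁻ x, ∫⁻ y, T2 x y = ∫⁻ x, ∫⁻ s, if 0 < x ∧ 0 < s - x ∧ 1 ≤ s then
        psi p q r s x else 0 := by
      apply lintegral_congr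
      intro x
      rw [← lintegral_sub_right_eq_self (fun y => T2 x y) x]
      apply lintegral_congr
      intro s
      simp only [hT2]
      have e : x + (s - x) = s := by ring
      rw [e]
    rw [e0]
    refine lintegral_lintegral_swap (f := fun x s => if 0 < x ∧ 0 < s - x ∧ 1 ≤ s then
        psi p q r s x else 0) ?_
    · apply Measurable.aemeasurable
      apply Measurable.ite
      · exact (measurableSet_lt measurable_const measurable_fst).inter
          ((measurableSet_lt measurable_const (measurable_snd.sub measurable_fst)).inter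
          (measurableSet_le measurable_const measurable_snd))
      · exact (measurable_psi p q r).comp (measurable_snd.prodMk measurable_fst)
      · exact measurable_const
  have e3 : ∫⁻ x, ∫⁻ y, T3 x y = ∫⁻ s, ∫⁻ x, if 1 ≤ s ∧ s - x ≤ 0 then
      psi p q r s x else 0 := by
    apply lintegral_congr
    intro s
    rw [← lintegral_sub_left_eq_self (fun y => T3 s y) s]
    apply lintegral_congr
    intro x
    simp only [hT3]
    have e : s - (s - x) = x := by ring
    rw [e]
  rw [e1, e2, e3]
  have n1 : Measurable (fun u : ℝ × ℝ => if u.2 ≤ 0 ∧ 1 ≤ u.1 then psi p q r u.1 u.2 else 0) := by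
    apply Measurable.ite
    · exact (measurableSet_le measurable_snd measurable_const).inter
        (measurableSet_le measurable_const measurable_fst)
    · exact measurable_psi p q r
    · exact measurable_const
  have n2 : Measurable (fun u : ℝ × ℝ => if 0 < u.2 ∧ 0 < u.1 - u.2 ∧ 1 ≤ u.1 then
      psi p q r u.1 u.2 else 0) := by
    apply Measurable.ite
    · exact (measurableSet_lt measurable_const measurable_snd).inter
        ((measurableSet_lt measurable_const (measurable_fst.sub measurable_snd)).inter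
        (measurableSet_le measurable_const measurable_fst))
    · exact measurable_psi p q r
    · exact measurable_const
  have n3 : Measurable (fun u : ℝ × ℝ => if 1 ≤ u.1 ∧ u.1 - u.2 ≤ 0 then
      psi p q r u.1 u.2 else 0) := by
    apply Measurable.ite
    · exact (measurableSet_le measurable_const measurable_fst).inter
        (measurableSet_le (measurable_fst.sub measurable_snd) measurable_const)
    · exact measurable_psi p q r
    · exact measurable_const
  have c1 : Measurable (fun s => ∫⁻ x, if x ≤ 0 ∧ 1 ≤ s then psi p q r s x else 0) :=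
    n1.lintegral_prod_right'
  have c2 : Measurable (fun s => ∫⁻ x, if 0 < x ∧ 0 < s - x ∧ 1 ≤ s then
      psi p q r s x else 0) := n2.lintegral_prod_right'
  rw [← lintegral_add_left c2, ← lintegral_add_left c1]
  have hlow : ∀ s : ℝ, (if 1 ≤ s then ENNReal.ofReal ((2 - p - q - r) * max (2 - r - s) 0) else 0) ≤
      (∫⁻ x, if x ≤ 0 ∧ 1 ≤ s then psi p q r s x else 0) +
      ((∫⁻ x, if 0 < x ∧ 0 < s - x ∧ 1 ≤ s then psi p q r s x else 0) +
        ∫⁻ x, if 1 ≤ s ∧ s - x ≤ 0 then psi p q r s x else 0) := by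
    intro s
    split_ifs with hs
    · rw [← psi_int hH]
      have b1 : Measurable (fun x : ℝ => if x ≤ 0 ∧ 1 ≤ s then psi p q r s x else 0) :=
        n1.comp measurable_prodMk_left
      have b2 : Measurable (fun x : ℝ => if 0 < x ∧ 0 < s - x ∧ 1 ≤ s then psi p q r s x else 0) :=
        n2.comp measurable_prodMk_left
      rw [← lintegral_add_left b2, ← lintegral_add_left b1]
      apply lintegral_mono
      intro x
      change psi p q r s x ≤ (if x ≤ 0 ∧ 1 ≤ s then psi p q r s x else 0) +
        ((if 0 < x ∧ 0 < s - x ∧ 1 ≤ s then psi p q r s x else 0) +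
          if 1 ≤ s ∧ s - x ≤ 0 then psi p q r s x else 0)
      rcases le_or_gt x 0 with hx | hx
      · rw [if_pos ⟨hx, hs⟩]
        exact le_self_add
      · rcases le_or_gt (s - x) 0 with hsx | hsx
        · rw [if_pos (⟨hs, hsx⟩ : 1 ≤ s ∧ s - x ≤ 0)]
          exact le_add_self.trans le_add_self
        · rw [if_pos (⟨hx, hsx, hs⟩ : 0 < x ∧ 0 < s - x ∧ 1 ≤ s)]
          exact le_self_add.trans le_add_self
    · exact bot_le
  refine le_trans ?_ (lintegral_mono hlow)
  have h5 : ∫⁻ s, (if 1 ≤ s then ENNReal.ofReal ((2 - p - q - r) * max (2 - r - s) 0) else 0) =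
      ∫⁻ t, (if 0 ≤ t then ENNReal.ofReal ((2 - p - q - r) * max (1 - r - t) 0) else 0) := by
    rw [← lintegral_add_right_eq_self (fun s : ℝ => if 1 ≤ s then
      ENNReal.ofReal ((2 - p - q - r) * max (2 - r - s) 0) else 0) 1]
    apply lintegral_congr
    intro t
    have e : 2 - r - (t + 1) = 1 - r - t := by ring
    rw [e]
    by_cases h : 0 ≤ t
    · rw [if_pos h, if_pos (by linarith)]
    · rw [if_neg h, if_neg (by linarith)]
  rw [h5]
  have h6 : ∫⁻ t in Ioi (0 : ℝ), ENNReal.ofReal ((2 - p - q - r) * max (1 - r - t) 0) ≤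
      ∫⁻ t, (if 0 ≤ t then ENNReal.ofReal ((2 - p - q - r) * max (1 - r - t) 0) else 0) := by
    rw [← lintegral_indicator measurableSet_Ioi]
    apply lintegral_mono
    intro t
    by_cases h : 0 < t
    · rw [indicator_of_mem (show t ∈ Ioi 0 from h)]
      change _ ≤ if 0 ≤ t then _ else _
      rw [if_pos h.le]
    · rw [indicator_of_notMem (show t ∉ Ioi 0 from h)]
      exact bot_le
  refine le_trans (le_of_eq ?_) h6
  have h7 := lint_pow 1 one_ne_zero (1 - r)
  have h8 : ∀ t : ℝ, ENNReal.ofReal ((2 - p - q - r) * max (1 - r - t) 0) =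
      ENNReal.ofReal (2 - p - q - r) * ENNReal.ofReal ((max (1 - r - t) 0) ^ 1) := by
    intro t
    rw [ENNReal.ofReal_mul hH, pow_one]
  simp only [h8]
  rw [lintegral_const_mul _ (by fun_prop), h7, ← ENNReal.ofReal_mul hH,
    max_eq_left (by linarith : 0 ≤ 1 - r)]
  congr 1
  norm_num
  ring

theorem main_alg {p q r : ℝ} (hp : p ≤ 1) (hq0 : 0 ≤ q) (hq : q ≤ 1) (hr0 : 0 ≤ r) (hr : r ≤ 1)
    (hH : 0 ≤ 2 - p - q - r) :
    |p| * |q| * max (2 - r - max p 0 - max q 0) 0 +
      (|p| + |q|) * (max (2 - r - max p 0 - max q 0) 0) ^ 2 +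
        2 / 3 * (max (2 - r - max p 0 - max q 0) 0) ^ 3 - (2 - p - q - r) * (1 - r) ^ 2 =
      ff (p + q + r - 1) p q r := by
  unfold ff
  rw [max_eq_left hq0, abs_of_nonneg hq0, max_eq_right (by linarith : -q ≤ 0),
    max_eq_right (by linarith : -r ≤ 0), max_eq_right (by linarith : p - 1 ≤ 0),
    max_eq_right (by linarith : q - 1 ≤ 0), max_eq_right (by linarith : r - 1 ≤ 0)]
  rcases le_total p 0 with h | h
  · rw [max_eq_right h, abs_of_nonpos h, max_eq_left (by linarith : 0 ≤ -p),
      max_eq_left (by linarith : 0 ≤ 2 - r - 0 - q)]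
    ring
  · rw [max_eq_left h, abs_of_nonneg h, max_eq_right (by linarith : -p ≤ 0),
      max_eq_left (by linarith : 0 ≤ 2 - r - p - q)]
    ring

/-- the first entry may be negative -/
theorem main_le0 {p q r : ℝ} (hp : p ≤ 1) (hq0 : 0 ≤ q) (hq : q ≤ 1) (hr0 : 0 ≤ r) (hr : r ≤ 1)
    (hH : 0 ≤ 2 - p - q - r) :
    volume (RR p q r) ≤ ENNReal.ofReal (ff (p + q + r - 1) p q r) := by
  rw [← main_alg hp hq0 hq hr0 hr hH]
  have hcor := corner hp hq0 hq hr hH
  set C : ℝ≥0∞ := ∫⁻ x, ∫⁻ y, if 1 ≤ max x 0 + max y 0 then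
    ENNReal.ofReal (2 - r - (max x 0 + max y 0) - (max (p - x) 0 + max (q - y) 0)) else 0 with hC
  have hC' : C = ∫⁻ x, ∫⁻ y, if 1 ≤ max (p - x) 0 + max (q - y) 0 then
      ENNReal.ofReal (2 - r - (max x 0 + max y 0) - (max (p - x) 0 + max (q - y) 0)) else 0 := by
    rw [hC, ← lintegral_sub_left_eq_self (fun x => ∫⁻ y, if 1 ≤ max x 0 + max y 0 then
      ENNReal.ofReal (2 - r - (max x 0 + max y 0) - (max (p - x) 0 + max (q - y) 0)) else 0) p]
    apply lintegral_congr
    intro x
    rw [← lintegral_sub_left_eq_self (fun y => if 1 ≤ max (p - x) 0 + max y 0 then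
      ENNReal.ofReal (2 - r - (max (p - x) 0 + max y 0) - (max (p - (p - x)) 0 + max (q - y) 0))
      else 0) q]
    apply lintegral_congr
    intro y
    have e1 : p - (p - x) = x := by ring
    have e2 : q - (q - y) = y := by ring
    rw [e1, e2]
    have e3 : 2 - r - (max (p - x) 0 + max (q - y) 0) - (max x 0 + max y 0) =
      2 - r - (max x 0 + max y 0) - (max (p - x) 0 + max (q - y) 0) := by ring
    rw [e3]
  -- the section
  have hsec : ∀ x y : ℝ, volume {z : ℝ | (![x, y, z] : Fin 3 → ℝ) ∈ RR p q r} +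
      ((if 1 ≤ max x 0 + max y 0 then
        ENNReal.ofReal (2 - r - (max x 0 + max y 0) - (max (p - x) 0 + max (q - y) 0)) else 0) +
      (if 1 ≤ max (p - x) 0 + max (q - y) 0 then
        ENNReal.ofReal (2 - r - (max x 0 + max y 0) - (max (p - x) 0 + max (q - y) 0)) else 0)) ≤
      ENNReal.ofReal (2 - r - max p 0 - max q 0 - dl p x - dl q y) := by
    intro x y
    have e : 2 - r - max p 0 - max q 0 - dl p x - dl q y =
        2 - r - (max x 0 + max y 0) - (max (p - x) 0 + max (q - y) 0) := by
      unfold dl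
      ring
    rw [e]
    have key : ∀ z : ℝ, (![x, y, z] : Fin 3 → ℝ) ∈ RR p q r →
        max x 0 + max y 0 + max z 0 < 1 ∧
        max (p - x) 0 + max (q - y) 0 + max (r - z) 0 < 1 := fun z hz => hz
    by_cases hA : 1 ≤ max x 0 + max y 0
    · have hE : {z : ℝ | (![x, y, z] : Fin 3 → ℝ) ∈ RR p q r} = ∅ := by
        rw [Set.eq_empty_iff_forall_notMem]
        intro z hz
        have := (key z hz).1
        linarith [le_max_right z 0]
      rw [hE, measure_empty, zero_add, if_pos hA]
      by_cases hB : 1 ≤ max (p - x) 0 + max (q - y) 0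
      · rw [if_pos hB, ENNReal.ofReal_of_nonpos (by linarith), add_zero]
      · rw [if_neg hB, add_zero]
    · rw [if_neg hA, zero_add]
      by_cases hB : 1 ≤ max (p - x) 0 + max (q - y) 0
      · have hE : {z : ℝ | (![x, y, z] : Fin 3 → ℝ) ∈ RR p q r} = ∅ := by
          rw [Set.eq_empty_iff_forall_notMem]
          intro z hz
          have := (key z hz).2
          linarith [le_max_right (r - z) 0]
        rw [hE, measure_empty, zero_add, if_pos hB]
      · rw [if_neg hB, add_zero]
        have hI : {z : ℝ | (![x, y, z] : Fin 3 → ℝ) ∈ RR p q r} ⊆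
            Ioo (r - 1 + (max (p - x) 0 + max (q - y) 0)) (1 - (max x 0 + max y 0)) := by
          intro z hz
          have h1 := (key z hz).1
          have h2 := (key z hz).2
          have h3 := le_max_left z 0
          have h4 := le_max_left (r - z) 0
          constructor <;> linarith
        refine (measure_mono hI).trans ?_
        rw [Real.volume_Ioo]
        apply ENNReal.ofReal_le_ofReal
        linarith
  have htot : volume (RR p q r) + (C + C) ≤
      ENNReal.ofReal (|p| * |q| * max (2 - r - max p 0 - max q 0) 0 +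
      (|p| + |q|) * (max (2 - r - max p 0 - max q 0) 0) ^ 2 +
        2 / 3 * (max (2 - r - max p 0 - max q 0) 0) ^ 3) := by
    rw [← lint2, vol3 (RR_open p q r).measurableSet]
    nth_rw 2 [hC']
    rw [hC]
    refine (add_le_add le_rfl (le_lintegral_add _ _)).trans
      ((le_lintegral_add _ _).trans (lintegral_mono fun x => ?_))
    refine (add_le_add le_rfl (le_lintegral_add _ _)).trans
      ((le_lintegral_add _ _).trans (lintegral_mono fun y => ?_))
    exact hsec x y
  have h2 : ENNReal.ofReal ((2 - p - q - r) * (1 - r) ^ 2) ≤ C + C := by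
    have e : (2 - p - q - r) * (1 - r) ^ 2 =
        (2 - p - q - r) * (1 - r) ^ 2 / 2 + (2 - p - q - r) * (1 - r) ^ 2 / 2 := by ring
    rw [e, ENNReal.ofReal_add (by positivity) (by positivity)]
    exact add_le_add hcor hcor
  rw [ENNReal.ofReal_sub _ (by positivity)]
  apply ENNReal.le_sub_of_add_le_right ENNReal.ofReal_ne_top
  exact (add_le_add le_rfl h2).trans htot

theorem RR_swap (a b c : ℝ) : volume (RR a b c) = volume (RR c b a) := by
  have hmp := volume_measurePreserving_piCongrLeft (fun _ : Fin 3 => ℝ) (Equiv.swap (0 : Fin 3) 2)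
  rw [← hmp.measure_preimage (RR_open a b c).measurableSet.nullMeasurableSet]
  congr 1
  ext v
  have e0 : (MeasurableEquiv.piCongrLeft (fun _ : Fin 3 => ℝ) (Equiv.swap (0 : Fin 3) 2)) v 0 =
      v 2 := Equiv.piCongrLeft_apply_apply (fun _ : Fin 3 => ℝ) (Equiv.swap (0 : Fin 3) 2) v 2
  have e1 : (MeasurableEquiv.piCongrLeft (fun _ : Fin 3 => ℝ) (Equiv.swap (0 : Fin 3) 2)) v 1 =
      v 1 := Equiv.piCongrLeft_apply_apply (fun _ : Fin 3 => ℝ) (Equiv.swap (0 : Fin 3) 2) v 1
  have e2 : (MeasurableEquiv.piCongrLeft (fun _ : Fin 3 => ℝ) (Equiv.swap (0 : Fin 3) 2)) v 2 =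
      v 0 := Equiv.piCongrLeft_apply_apply (fun _ : Fin 3 => ℝ) (Equiv.swap (0 : Fin 3) 2) v 0
  simp only [mem_preimage, RR, mem_setOf_eq, e0, e1, e2]
  constructor
  · rintro ⟨h1, h2⟩
    constructor <;> linarith
  · rintro ⟨h1, h2⟩
    constructor <;> linarith

theorem ff_swap (d a b c : ℝ) : ff d a b c = ff d c b a := by
  unfold ff
  ring

/-- the volume of a main cell -/
theorem main_le {a b c : ℝ} (ha0 : 0 ≤ a) (hb0 : 0 ≤ b) (ha : a ≤ 1) (hb : b ≤ 1) (hc : c ≤ 1)
    (_h1 : 1 ≤ a + b + c) : volume (RR a b c) ≤ ENNReal.ofReal (ff (a + b + c - 1) a b c) := by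
  rcases le_total 0 (2 - a - b - c) with hH | hH
  · rw [RR_swap, ff_swap]
    have e : a + b + c - 1 = c + b + a - 1 := by ring
    rw [e]
    exact main_le0 hc hb0 hb ha0 ha (by linarith)
  · have h := empty_le (a := a) (b := b) (c := c) (by
      rw [max_eq_left ha0, max_eq_left hb0]
      linarith)
    rw [h]
    exact bot_le

end Pool.Agent.Helper53.TS
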