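import Pool.Agent.Helper53.TS.Vol0
import Pool.Agent.Helper84.TS.Fd

/-!
# The volume of a far cell
-/

set_option autoImplicit false

namespace Pool.Agent.Helper53.TS

open MeasureTheory Set
open scoped ENNReal
open Pool.Agent.Helper84.TS

/-- the cell with row `(a, b, c)` in the coordinates `v` off the class -/
def RR (a b c : ℝ) : Set (Fin 3 → ℝ) :=
  {v | max (v 0) 0 + max (v 1) 0 + max (v 2) 0 < 1 ∧
    max (a - v 0) 0 + max (b - v 1) 0 + max (c - v 2) 0 < 1}

theorem RR_open (a b c : ℝ) : IsOpen (RR a b c) := by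
  have : RR a b c = {v | max (v 0) 0 + max (v 1) 0 + max (v 2) 0 < 1} ∩
      {v | max (a - v 0) 0 + max (b - v 1) 0 + max (c - v 2) 0 < 1} := rfl
  rw [this]
  exact (isOpen_lt (by fun_prop) (by fun_prop)).inter (isOpen_lt (by fun_prop) (by fun_prop))

/-- the full integral of the sections in the last coordinate; it is the exact volume if `1 ≤ c` -/
theorem vol_RR_le (a b c : ℝ) : volume (RR a b c) ≤
    ENNReal.ofReal (|a| * |b| * max (2 - c - max a 0 - max b 0) 0 +
      (|a| + |b|) * (max (2 - c - max a 0 - max b 0) 0) ^ 2 +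
        2 / 3 * (max (2 - c - max a 0 - max b 0) 0) ^ 3) := by
  rw [vol3 (RR_open a b c).measurableSet, ← lint2]
  apply lintegral_mono
  intro x
  apply lintegral_mono
  intro y
  have h : {z : ℝ | (![x, y, z] : Fin 3 → ℝ) ∈ RR a b c} ⊆
      Ioo (c - 1 + (max (a - x) 0 + max (b - y) 0)) (1 - (max x 0 + max y 0)) := by
    intro z hz
    have h1 : max x 0 + max y 0 + max z 0 < 1 := hz.1
    have h2 : max (a - x) 0 + max (b - y) 0 + max (c - z) 0 < 1 := hz.2
    have h3 := le_max_left z 0
    have h4 := le_max_left (c - z) 0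
    constructor <;> linarith
  refine (measure_mono h).trans ?_
  rw [Real.volume_Ioo]
  apply ENNReal.ofReal_le_ofReal
  unfold dl
  linarith

/-- the algebra: the value is `ff` -/
theorem far_eq {a b c : ℝ} (hc : 1 ≤ c) (hW : 0 ≤ 2 - c - max a 0 - max b 0) :
    |a| * |b| * max (2 - c - max a 0 - max b 0) 0 +
      (|a| + |b|) * (max (2 - c - max a 0 - max b 0) 0) ^ 2 +
        2 / 3 * (max (2 - c - max a 0 - max b 0) 0) ^ 3 = ff (a + b + c - 1) a b c := by
  rw [max_eq_left hW]
  unfold ff
  rw [max_eq_right (by linarith : -c ≤ 0), max_eq_left (by linarith : 0 ≤ c - 1)]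
  rcases le_total a 0 with ha | ha <;> rcases le_total b 0 with hb | hb
  · rw [max_eq_right ha, max_eq_right hb, abs_of_nonpos ha, abs_of_nonpos hb,
      max_eq_left (by linarith : 0 ≤ -a), max_eq_left (by linarith : 0 ≤ -b),
      max_eq_right (by linarith : a - 1 ≤ 0), max_eq_right (by linarith : b - 1 ≤ 0)]
    ring
  · rw [max_eq_right ha, max_eq_left hb] at hW
    rw [max_eq_right ha, max_eq_left hb, abs_of_nonpos ha, abs_of_nonneg hb,
      max_eq_left (by linarith : 0 ≤ -a), max_eq_right (by linarith : -b ≤ 0),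
      max_eq_right (by linarith : a - 1 ≤ 0), max_eq_right (by linarith : b - 1 ≤ 0)]
    ring
  · rw [max_eq_left ha, max_eq_right hb] at hW
    rw [max_eq_left ha, max_eq_right hb, abs_of_nonneg ha, abs_of_nonpos hb,
      max_eq_right (by linarith : -a ≤ 0), max_eq_left (by linarith : 0 ≤ -b),
      max_eq_right (by linarith : a - 1 ≤ 0), max_eq_right (by linarith : b - 1 ≤ 0)]
    ring
  · rw [max_eq_left ha, max_eq_left hb] at hW
    rw [max_eq_left ha, max_eq_left hb, abs_of_nonneg ha, abs_of_nonneg hb,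
      max_eq_right (by linarith : -a ≤ 0), max_eq_right (by linarith : -b ≤ 0),
      max_eq_right (by linarith : a - 1 ≤ 0), max_eq_right (by linarith : b - 1 ≤ 0)]
    ring

theorem far_le {a b c : ℝ} (hc : 1 ≤ c) (hW : 0 ≤ 2 - c - max a 0 - max b 0) :
    volume (RR a b c) ≤ ENNReal.ofReal (ff (a + b + c - 1) a b c) := by
  rw [← far_eq hc hW]
  exact vol_RR_le a b c

theorem empty_le {a b c : ℝ} (hW : 2 - c - max a 0 - max b 0 ≤ 0) :
    volume (RR a b c) = 0 := by
  have h := vol_RR_le a b c
  rw [max_eq_right hW] at h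
  simpa using h

end Pool.Agent.Helper53.TS
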