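import Pool.Agent.Helper90.TS.N2Asm

/-!
# `TwoLowNE`: the four cases

Two weak classes `a`, `b` (kind `R2`), two good classes `x`, `y`. The witness `C` is a far cell of the
class `a` with `d_C < 11/20` which violates its cap on the row `x`: `C = (a; b)` (kind `T`) or
`C = (a; y)` (kind `O`). In each kind either the class `a` or the class `b` is good (not `Bad`).
-/

set_option autoImplicit false

namespace Pool.Agent.Helper53.TS

open Pool.Agent.Helper84.TS Pool.Agent.Helper23.TS Pool.Agent.Helper36.TS Pool.Agent.Helper44.TS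
  Pool.Agent.Helper74.TS Pool.Agent.Helper90.TS

/-- the witness: the far cell `C = (a; m)` violates its cap on the row `x`; `z` the fourth index -/
structure NE (A : Fin 4 → Fin 4 → Option (Fin 4 → ℝ)) (P : Fin 4 → Fin 4 → ℝ) (a b x y m z : Fin 4)
    (C : Fin 4 → ℝ) : Prop extends Rows A P a b x y where
  ra : Helper84.TS.R2 A a
  rb : Helper84.TS.R2 A b
  hm : [a, m, x, z].Nodup
  hC : A a m = some C
  dC0 : 0 ≤ C a - 1
  dC : C a - 1 < 11 / 20
  /-- the cap is violated -/
  cap : (C z + (C a - 1)) + (P x x - 1) < -P x m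
  /-- (i) -/
  sum : -P x m + -P x z ≤ (C a - 1) + (P x x - 1)
  /-- (ii) -/
  big : 1 - (C a - 1) ≤ -P x a
  /-- the heights -/
  dx1 : P x x - 1 ≤ 113 / 500
  dy1 : P y y - 1 ≤ 113 / 500

/-- **The four cases** of `TwoLowNE`: `C = (a; b)` or `C = (a; y)`, the class `a` or the class `b` is
good. -/
theorem ne_cases
    (hTa : ∀ A P a b x y C, NE A P a b x y b y C → ¬ Bad A a x y → ∑ i, VV A i ≤ 613 / 200)
    (hTb : ∀ A P a b x y C, NE A P a b x y b y C → ¬ Bad A b x y → ∑ i, VV A i ≤ 613 / 200)
    (hOa : ∀ A P a b x y C, NE A P a b x y y b C → ¬ Bad A a x y → ∑ i, VV A i ≤ 613 / 200)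
    (hOb : ∀ A P a b x y C, NE A P a b x y y b C → ¬ Bad A b x y → ∑ i, VV A i ≤ 613 / 200) :
    TwoLowNE := by
  have key : ∀ (A : Fin 4 → Fin 4 → Option (Fin 4 → ℝ)) (P : Fin 4 → Fin 4 → ℝ)
      (a b x y : Fin 4), Rows A P a b x y → Helper84.TS.R2 A a → Helper84.TS.R2 A b →
      ∀ (m z : Fin 4) (F : Fin 4 → ℝ), [a, m, x, z].Nodup →
      A a m = some F → F a - 1 < 11 / 20 → (F z + (F a - 1)) + (P x x - 1) < -P x m →
      1 - (F a - 1) ≤ -P x a → ∑ i, VV A i ≤ 613 / 200 := by
    intro A P a b x y R ra rb m z F hm hF dF cap big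
    have hn := R.hn
    have hxa : x ≠ a := (nodup_ne hn).2.1
    have hnx : [x, a, m, z].Nodup := by
      clear * - hm; revert hm; revert a m x z; decide
    have hc := R.of.cell x x _ R.hx
    have hone := (R.of.cell a m F hF).one
    have hl := (cell_lin hc hnx).1
    have N : NE A P a b x y m z F :=
      ⟨R, ra, rb, hm, hF, by linarith, dF, cap, by linarith, big, by linarith [R.ds, R.dy],
        by linarith [R.ds, R.dx]⟩
    have hcase : (m = b ∧ z = y) ∨ (m = y ∧ z = b) := by
      clear * - hn hm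
      revert hn hm
      revert a b x y m z
      decide
    rcases hcase with ⟨rfl, rfl⟩ | ⟨rfl, rfl⟩
    · by_cases hbad : Bad A a x z
      · exact hTb A P a m x z F N (bad_excl R.of hn hbad)
      · exact hTa A P a m x z F N hbad
    · by_cases hbad : Bad A a x m
      · exact hOb A P a z x m F N (bad_excl R.of hn hbad)
      · exact hOa A P a z x m F N hbad
  intro A P a b c l R ra rb i m x z F hm hi hx hF dF cap big
  rcases hi with rfl | rfl
  · rcases hx with rfl | rfl
    · exact key A P i b x l R ra rb m z F hm hF dF cap big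
    · exact key A P i b x c R.flip ra rb m z F hm hF dF cap big
  · rcases hx with rfl | rfl
    · exact key A P i a x l R.swap rb ra m z F hm hF dF cap big
    · exact key A P i a x c R.swap.flip rb ra m z F hm hF dF cap big

end Pool.Agent.Helper53.TS
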