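import Pool.Agent.Helper84.TS.Fd

/-!
# Inequalities for one cell
-/

set_option autoImplicit false

namespace Pool.Agent.Helper53.TS

open Pool.Agent.Helper84.TS

/-- the volume of a cell without an entry above `1` is at most a quadratic minus the positive part
of the cubic term -/
theorem ff_le_aux {d x : ℝ} (_hd : d ≤ 1) (hx : -(1 - d) ≤ x) :
    -(1 - d) * x ^ 2 / 2 + (max (-x) 0) ^ 3 / 3 ≤ -(1 - d) * (max x 0) ^ 2 / 2 := by
  rcases le_total x 0 with h | h
  · rw [max_eq_left (by linarith : 0 ≤ -x), max_eq_right h]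
    have h1 : 0 ≤ (1 - d) - (-x) := by linarith
    have h2 : 0 ≤ x ^ 2 := sq_nonneg x
    nlinarith [mul_nonneg h2 h1, mul_nonneg h2 (by linarith : 0 ≤ -x)]
  · rw [max_eq_right (by linarith : -x ≤ 0), max_eq_left h]
    linarith

/-- the entries of a row with all entries at most `1` are at least `-(1 - d)` -/
theorem row_ge {d a b c : ℝ} (hs : a + b + c = 1 + d) (ha : a ≤ 1) (hb : b ≤ 1) :
    -(1 - d) ≤ c := by linarith

/-- the volume of a cell with all entries at most `1` -/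
theorem ff_plain_le {d a b c : ℝ} (hd0 : 0 ≤ d) (hd : d ≤ 1) (hs : a + b + c = 1 + d)
    (ha : a ≤ 1) (hb : b ≤ 1) (hc : c ≤ 1) :
    ff d a b c ≤ 1 - 5 / 3 * d + 2 / 3 * d ^ 2 := by
  unfold ff
  rw [max_eq_right (by linarith : a - 1 ≤ 0), max_eq_right (by linarith : b - 1 ≤ 0),
    max_eq_right (by linarith : c - 1 ≤ 0)]
  have h1 := ff_le_aux hd (row_ge (a := b) (b := c) (c := a) (by linarith) hb hc)
  have h2 := ff_le_aux hd (row_ge (a := a) (b := c) (c := b) (by linarith) ha hc)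
  have h3 := ff_le_aux hd (row_ge hs ha hb)
  have p1 : a ≤ max a 0 := le_max_left _ _
  have p2 : b ≤ max b 0 := le_max_left _ _
  have p3 : c ≤ max c 0 := le_max_left _ _
  have q1 : 0 ≤ max a 0 := le_max_right _ _
  have q2 : 0 ≤ max b 0 := le_max_right _ _
  have q3 : 0 ≤ max c 0 := le_max_right _ _
  set A := max a 0
  set B := max b 0
  set C := max c 0
  have hsum : 1 + d ≤ A + B + C := by linarith
  have hsq : (1 + d) ^ 2 / 3 ≤ A ^ 2 + B ^ 2 + C ^ 2 := by
    have hs2 := pow_le_pow_left₀ (by linarith only [hd0] : 0 ≤ 1 + d) hsum 2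
    linarith only [hs2, sq_nonneg (A - B), sq_nonneg (A - C), sq_nonneg (B - C)]
  have h4 : (1 - d) * ((1 + d) ^ 2 / 3) ≤ (1 - d) * (A ^ 2 + B ^ 2 + C ^ 2) :=
    mul_le_mul_of_nonneg_left hsq (by linarith)
  nlinarith [h1, h2, h3, h4]

/-- the volume of a cell with all entries at most `1`, the first one being `1 - t` -/
theorem ff_edge_le {d t b c : ℝ} (hd0 : 0 ≤ d) (hd : d ≤ 1) (ht : 0 ≤ t) (ht1 : t ≤ 1)
    (hs : b + c = d + t) (hb : b ≤ 1) (hc : c ≤ 1) :
    ff d (1 - t) b c ≤ 2 / 3 - d + t + d ^ 2 / 4 - 3 / 4 * t ^ 2 - 3 / 2 * d * t + d ^ 3 / 12 +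
      3 / 4 * d * t ^ 2 + 1 / 2 * d ^ 2 * t := by
  unfold ff
  rw [max_eq_right (by linarith : 1 - t - 1 ≤ 0), max_eq_right (by linarith : b - 1 ≤ 0),
    max_eq_right (by linarith : c - 1 ≤ 0), max_eq_right (by linarith : -(1 - t) ≤ 0)]
  have h2 := ff_le_aux (x := b) hd (by linarith)
  have h3 := ff_le_aux (x := c) hd (by linarith)
  have p2 : b ≤ max b 0 := le_max_left _ _
  have p3 : c ≤ max c 0 := le_max_left _ _
  have q2 : 0 ≤ max b 0 := le_max_right _ _
  have q3 : 0 ≤ max c 0 := le_max_right _ _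
  set B := max b 0
  set C := max c 0
  have hsum : d + t ≤ B + C := by linarith
  have hsq : (d + t) ^ 2 / 2 ≤ B ^ 2 + C ^ 2 := by
    nlinarith [sq_nonneg (B - C), sq_nonneg (B + C)]
  have h4 : (1 - d) * ((d + t) ^ 2 / 2) ≤ (1 - d) * (B ^ 2 + C ^ 2) :=
    mul_le_mul_of_nonneg_left hsq (by linarith)
  nlinarith [h2, h3, h4]

/-- the form with the potential `s - s ^ 2 / 3` -/
theorem ff_edge_pot {d t b c : ℝ} (hd0 : 0 ≤ d) (hd : d ≤ 1) (ht : 0 ≤ t) (ht1 : t ≤ 1)
    (hs : b + c = d + t) (hb : b ≤ 1) (hc : c ≤ 1) :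
    ff d (1 - t) b c + (d - d ^ 2 / 3) - (t - t ^ 2 / 3) ≤ 2 / 3 := by
  have h := ff_edge_le hd0 hd ht ht1 hs hb hc
  have h1 : 0 ≤ d * t := mul_nonneg hd0 ht
  have h2 : 0 ≤ d * t * (1 - t) := mul_nonneg h1 (by linarith)
  have h3 : 0 ≤ d * t * (1 - d) := mul_nonneg h1 (by linarith)
  have h4 : 0 ≤ d ^ 2 * (1 - d) := mul_nonneg (sq_nonneg d) (by linarith)
  nlinarith [h, h1, h2, h3, h4, sq_nonneg t]

/-- the exact form for a cell with an entry `1 + x ≥ 1` -/
theorem ff_far_form {d x b c : ℝ} (hx : 0 ≤ x) (hs : b + c = d - x) (hb : b ≤ 1) (hc : c ≤ 1) :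
    ff d (1 + x) b c = (1 - x) * (1 - d + b) * (1 - d + c) - (1 - x) ^ 3 / 3 +
      ((max b 0) ^ 3 + (max c 0) ^ 3) / 3 := by
  have hc' : c = d - x - b := by linarith
  unfold ff
  rw [max_eq_left (by linarith : 0 ≤ 1 + x - 1), max_eq_right (by linarith : b - 1 ≤ 0),
    max_eq_right (by linarith : c - 1 ≤ 0), max_eq_right (by linarith : -(1 + x) ≤ 0)]
  have key : ∀ y : ℝ, (max (-y) 0) ^ 3 = (max y 0) ^ 3 - y ^ 3 := by
    intro y
    rcases le_total y 0 with h | h
    · rw [max_eq_left (by linarith : 0 ≤ -y), max_eq_right h]; ring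
    · rw [max_eq_right (by linarith : -y ≤ 0), max_eq_left h]; ring
  rw [key b, key c]
  set B := (max b 0) ^ 3
  set C := (max c 0) ^ 3
  rw [hc']
  ring

theorem far_sup_aux {w s b c : ℝ} (hs : b + c = s) (hsw : s ≤ w) (hw : 0 ≤ w)
    (hb : b ≤ w) (hc : c ≤ w) :
    ((max b 0) ^ 3 + (max c 0) ^ 3) / 3 ≤ w * (b - c) ^ 2 / 4 + (max s 0) ^ 3 / 12 := by
  wlog hbc : c ≤ b with H
  · have := H (b := c) (c := b) (by linarith) hsw hw hc hb (by linarith)
    have e : (c - b) ^ 2 = (b - c) ^ 2 := by ring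
    rw [e] at this
    linarith
  rcases le_total c 0 with h0 | h0
  · rw [max_eq_right h0]
    rcases le_total b 0 with h1 | h1
    · rw [max_eq_right h1]
      have h2 : 0 ≤ w * (b - c) ^ 2 := mul_nonneg hw (sq_nonneg _)
      have h3 : 0 ≤ (max s 0) ^ 3 := pow_nonneg (le_max_right _ _) 3
      nlinarith
    · rw [max_eq_left h1]
      have hc' : c = s - b := by linarith
      rcases le_total s 0 with h2 | h2
      · rw [max_eq_right h2]
        have h3 : 2 * b ≤ b - c := by linarith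
        have h4 : (2 * b) ^ 2 ≤ (b - c) ^ 2 := pow_le_pow_left₀ (by linarith) h3 2
        have h5 : b * (2 * b) ^ 2 ≤ w * (b - c) ^ 2 :=
          mul_le_mul hb h4 (by positivity) hw
        have h6 : 0 ≤ b ^ 3 := pow_nonneg h1 3
        nlinarith
      · rw [max_eq_left h2]
        have h3 : b * (b - c) ^ 2 ≤ w * (b - c) ^ 2 :=
          mul_le_mul_of_nonneg_right hb (sq_nonneg _)
        obtain ⟨y, hy⟩ : ∃ y, y = -c := ⟨_, rfl⟩
        have hy0 : 0 ≤ y := by linarith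
        have hb' : b = s + y := by linarith
        have hc2 : c = -y := by linarith
        rw [hb', hc2] at h3 ⊢
        nlinarith [h3, mul_nonneg (mul_nonneg h2 h2) hy0, mul_nonneg h2 (mul_nonneg hy0 hy0),
          mul_nonneg hy0 (mul_nonneg hy0 hy0)]
  · have h1 : 0 ≤ b := h0.trans hbc
    rw [max_eq_left h0, max_eq_left h1, max_eq_left (by linarith : 0 ≤ s)]
    have h3 : s * (b - c) ^ 2 ≤ w * (b - c) ^ 2 :=
      mul_le_mul_of_nonneg_right hsw (sq_nonneg _)
    have e : b ^ 3 + c ^ 3 = s ^ 3 / 4 + 3 / 4 * s * (b - c) ^ 2 := by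
      rw [← hs]
      ring
    nlinarith [h3, e]

/-- the volume of a cell with an entry `1 + x ≥ 1` -/
theorem ff_far_le {d x b c : ℝ} (hd : d ≤ 1) (hx : 0 ≤ x)
    (hs : b + c = d - x) (hW : 0 ≤ 1 - x - max b 0 - max c 0) :
    ff d (1 + x) b c ≤ (1 - x) * (1 - (d + x) / 2) ^ 2 - (1 - x) ^ 3 / 3 +
      (max (d - x) 0) ^ 3 / 12 := by
  have hb1 := le_max_left b 0
  have hc1 := le_max_left c 0
  have hb2 := le_max_right b 0
  have hc2 := le_max_right c 0
  rw [ff_far_form hx hs (by linarith) (by linarith)]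
  have h := far_sup_aux (w := 1 - x) hs (by linarith) (by linarith) (by linarith) (by linarith)
  have e : (1 - x) * (1 - d + b) * (1 - d + c) =
      (1 - x) * (1 - (d + x) / 2) ^ 2 - (1 - x) * (b - c) ^ 2 / 4 := by
    have hc' : c = d - x - b := by linarith
    rw [hc']
    ring
  rw [e]
  linarith

/-- the form with the potential `d - d ^ 2 / 3` -/
theorem ff_far_pot {d x b c : ℝ} (hd0 : 0 ≤ d) (hd : d ≤ 1) (hx : 0 ≤ x)
    (hs : b + c = d - x) (hW : 0 ≤ 1 - x - max b 0 - max c 0) :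
    ff d (1 + x) b c + (d - d ^ 2 / 3) ≤ 2 / 3 - 1 / 3 * x * (1 - d) := by
  have h := ff_far_le hd hx hs hW
  have hx1 : x ≤ 1 := by
    have := le_max_right b 0
    have := le_max_right c 0
    linarith
  rcases le_total d x with h1 | h1
  · rw [max_eq_right (by linarith : d - x ≤ 0)] at h
    have k1 : 0 ≤ 4 * x * (x - d) ^ 2 := by positivity
    have k2 : 0 ≤ (x - d) * (13 * x - d) * (1 - x) :=
      mul_nonneg (mul_nonneg (by linarith) (by linarith)) (by linarith)
    have k3 : 0 ≤ 8 * x * (1 - x) ^ 2 := by positivity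
    nlinarith [h, k1, k2, k3]
  · rw [max_eq_left (by linarith : 0 ≤ d - x)] at h
    have k2 : 0 ≤ (1 - d) * (d - x) * (d + 3 * x) :=
      mul_nonneg (mul_nonneg (by linarith) (by linarith)) (by linarith)
    have k3 : 0 ≤ 8 * x * (1 - d) ^ 2 := by positivity
    nlinarith [h, k2, k3]

end Pool.Agent.Helper53.TS
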