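import Pool.Agent.Helper53.TT.Asm
import Pool.Agent.Helper36.TW.CMA
import Pool.Agent.Helper36.TW.CMB
import Pool.Agent.Helper36.TW.CML
import Pool.Agent.Helper20.TS.TallSA
import Pool.Agent.Helper20.TS.TallT3
import Pool.Agent.Helper52.TS.SB1
import Pool.Agent.Helper60.TS.SB2

/-!
# The case `CaseOneTall`

Exactly one class has a far cell with `w > 13/20` beside a main cell of height less than `3/5`, and all
four classes have such main cells. Family lemmas: helper53 (columns `b`, `c`, `l`), helper78 (column
`a`, assembly); certificates: helper83, helper36, helper20, helper52, helper60.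
-/

set_option autoImplicit false

namespace Pool.Agent.Helper53.TS

open Pool.Agent.Helper84.TS Pool.Agent.Helper53.TT Pool.Agent.Helper36.TW

theorem caseOneTall : CaseOneTall :=
  caseOneTall_of_cert
    (fun _ _ _ a b c d e f => cmA a b c d e f)
    (fun _ _ _ a b c d e f => cmB a b c d e f)
    (fun _ _ _ a b c d e f => cmL a b c d e f)
    Pool.Agent.Helper20.TS.t3A' Pool.Agent.Helper20.TS.t3B' Pool.Agent.Helper20.TS.sA'
    (fun _ _ _ a b c d e f => Pool.Agent.Helper52.TS.sB10 ⟨a, c, e, b, d, f⟩)
    (fun _ _ _ a b c d e f => Pool.Agent.Helper52.TS.sB11 ⟨a, c, e, b, d, f⟩)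
    Pool.Agent.Helper60.TS.sB2'

end Pool.Agent.Helper53.TS
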