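import Mathlib

/-!
# Volumes in `ℝ³` by slicing
-/

set_option autoImplicit false

namespace Pool.Agent.Helper53.TS

open MeasureTheory Set
open scoped ENNReal

theorem mp3 : MeasurePreserving (fun p : ℝ × ℝ × ℝ => (![p.1, p.2.1, p.2.2] : Fin 3 → ℝ)) := by
  have h := ((volume_preserving_piFinSuccAbove (fun _ : Fin 3 => ℝ) 0).symm _).comp
    ((MeasurePreserving.id (volume : Measure ℝ)).prod
      ((volume_preserving_piFinTwo (fun _ : Fin 2 => ℝ)).symm _))
  have e : (fun p : ℝ × ℝ × ℝ => (![p.1, p.2.1, p.2.2] : Fin 3 → ℝ)) =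
      (MeasurableEquiv.piFinSuccAbove (fun _ : Fin 3 => ℝ) 0).symm ∘
      (Prod.map id (MeasurableEquiv.piFinTwo (fun _ : Fin 2 => ℝ)).symm) := by
    funext p
    ext i
    fin_cases i <;> rfl
  rw [e]
  exact h

theorem vol3 {S : Set (Fin 3 → ℝ)} (hS : MeasurableSet S) :
    volume S = ∫⁻ x, ∫⁻ y, volume {z : ℝ | (![x, y, z] : Fin 3 → ℝ) ∈ S} := by
  have h1 := mp3.measure_preimage hS.nullMeasurableSet
  have hm := mp3.measurable hS
  rw [← h1, Measure.volume_eq_prod, Measure.prod_apply hm]
  apply lintegral_congr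
  intro x
  have hm2 : MeasurableSet (Prod.mk x ⁻¹' ((fun p : ℝ × ℝ × ℝ => (![p.1, p.2.1, p.2.2] :
      Fin 3 → ℝ)) ⁻¹' S)) := measurable_prodMk_left hm
  rw [Measure.volume_eq_prod, Measure.prod_apply hm2]
  rfl

/-- the distance from the interval between `0` and `a` -/
noncomputable def dl (a x : ℝ) : ℝ := max x 0 + max (a - x) 0 - max a 0

theorem dl_nonneg (a x : ℝ) : 0 ≤ dl a x := by
  unfold dl
  rcases le_total x 0 with h1 | h1 <;> rcases le_total (a - x) 0 with h2 | h2 <;>
    rcases le_total a 0 with h3 | h3 <;>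
    simp only [h1, h2, h3, max_eq_left, max_eq_right] <;> linarith

theorem continuous_dl (a : ℝ) : Continuous (dl a) := by
  unfold dl
  fun_prop

/-- the integral of a function of the distance from an interval -/
theorem lint_dl (a : ℝ) (F : ℝ → ℝ≥0∞) (hF : Measurable F) :
    ∫⁻ x, F (dl a x) = ENNReal.ofReal |a| * F 0 + 2 * ∫⁻ t in Ioi (0 : ℝ), F t := by
  have hb : min a 0 ≤ max a 0 := min_le_max
  have h1 : ∫⁻ x, F (dl a x) = (∫⁻ x in Iio (min a 0), F (dl a x)) +
      ((∫⁻ x in Icc (min a 0) (max a 0), F (dl a x)) + ∫⁻ x in Ioi (max a 0), F (dl a x)) := by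
    rw [← lintegral_union measurableSet_Ioi, Icc_union_Ioi_eq_Ici hb,
      ← lintegral_union measurableSet_Ici, Iio_union_Ici, Measure.restrict_univ]
    · exact Set.disjoint_left.2 fun x hx hx' => absurd (show x < min a 0 from hx) (not_lt.2 (show min a 0 ≤ x from hx'))
    · exact Set.disjoint_left.2 fun x hx hx' => absurd hx' (not_lt.2 hx.2)
  have h2 : ∫⁻ x in Icc (min a 0) (max a 0), F (dl a x) = ENNReal.ofReal |a| * F 0 := by
    have : ∫⁻ x in Icc (min a 0) (max a 0), F (dl a x) =
        ∫⁻ x in Icc (min a 0) (max a 0), F 0 := by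
      apply setLIntegral_congr_fun measurableSet_Icc
      intro x hx
      change F (dl a x) = F 0
      congr 1
      have h1 := hx.1
      have h2 := hx.2
      unfold dl
      rcases le_total a 0 with h3 | h3
      · rw [min_eq_left h3] at h1
        rw [max_eq_right h3] at h2
        rw [max_eq_right h3, max_eq_right h2, max_eq_right (by linarith)]
        ring
      · rw [min_eq_right h3] at h1
        rw [max_eq_left h3] at h2
        rw [max_eq_left h3, max_eq_left h1, max_eq_left (by linarith)]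
        ring
    rw [this, setLIntegral_const, Real.volume_Icc, max_sub_min_eq_abs, mul_comm]
    simp
  have h3 : ∫⁻ x in Ioi (max a 0), F (dl a x) = ∫⁻ t in Ioi (0 : ℝ), F t := by
    have hmp := measurePreserving_sub_right (volume : Measure ℝ) (max a 0)
    have := hmp.setLIntegral_comp_preimage (s := Ioi (0 : ℝ)) measurableSet_Ioi hF
    rw [← this]
    have hs : (fun x : ℝ => x - max a 0) ⁻¹' Ioi 0 = Ioi (max a 0) := by
      ext x
      simp
    rw [hs]
    apply setLIntegral_congr_fun measurableSet_Ioi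
    intro x hx
    have hx' : max a 0 < x := hx
    have hxa := (max_lt_iff.1 hx').1
    have hx0 := (max_lt_iff.1 hx').2
    change F (dl a x) = F (x - max a 0)
    congr 1
    unfold dl
    rw [max_eq_left hx0.le, max_eq_right (by linarith : a - x ≤ 0)]
    ring
  have h4 : ∫⁻ x in Iio (min a 0), F (dl a x) = ∫⁻ t in Ioi (0 : ℝ), F t := by
    have hmp := Measure.measurePreserving_sub_left (volume : Measure ℝ) (min a 0)
    have := hmp.setLIntegral_comp_preimage (s := Ioi (0 : ℝ)) measurableSet_Ioi hF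
    rw [← this]
    have hs : (fun x : ℝ => min a 0 - x) ⁻¹' Ioi 0 = Iio (min a 0) := by
      ext x
      simp only [mem_preimage, mem_Ioi, mem_Iio, sub_pos]
    rw [hs]
    apply setLIntegral_congr_fun measurableSet_Iio
    intro x hx
    have hx' : x < min a 0 := hx
    have hxa := (lt_min_iff.1 hx').1
    have hx0 := (lt_min_iff.1 hx').2
    change F (dl a x) = F (min a 0 - x)
    congr 1
    unfold dl
    rw [max_eq_right hx0.le, max_eq_left (by linarith : 0 ≤ a - x)]
    rcases le_total a 0 with h | h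
    · rw [min_eq_left h, max_eq_right h]; ring
    · rw [min_eq_right h, max_eq_left h]; ring
  rw [h1, h2, h3, h4]
  ring

theorem lint_pow (n : ℕ) (hn : n ≠ 0) (s : ℝ) :
    ∫⁻ t in Ioi (0 : ℝ), ENNReal.ofReal ((max (s - t) 0) ^ n) =
      ENNReal.ofReal ((max s 0) ^ (n + 1) / (n + 1)) := by
  rcases le_total s 0 with h | h
  · rw [max_eq_right h, zero_pow (by omega), zero_div, ENNReal.ofReal_zero]
    rw [show (0 : ℝ≥0∞) = ∫⁻ t in Ioi (0 : ℝ), 0 by simp]
    apply setLIntegral_congr_fun measurableSet_Ioi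
    intro t ht
    have ht' : 0 < t := ht
    change ENNReal.ofReal ((max (s - t) 0) ^ n) = 0
    rw [max_eq_right (by linarith), zero_pow hn, ENNReal.ofReal_zero]
  · rw [max_eq_left h, ← Ioc_union_Ioi_eq_Ioi h,
      lintegral_union measurableSet_Ioi
        (Set.disjoint_left.2 fun x hx hx' => absurd (show s < x from hx') (not_lt.2 hx.2))]
    have h2 : ∫⁻ t in Ioi s, ENNReal.ofReal ((max (s - t) 0) ^ n) = 0 := by
      rw [show (0 : ℝ≥0∞) = ∫⁻ t in Ioi s, 0 by simp]
      apply setLIntegral_congr_fun measurableSet_Ioi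
      intro t ht
      have ht' : s < t := ht
      change ENNReal.ofReal ((max (s - t) 0) ^ n) = 0
      rw [max_eq_right (by linarith), zero_pow hn, ENNReal.ofReal_zero]
    rw [h2, add_zero]
    have hc : Continuous fun t : ℝ => (max (s - t) 0) ^ n := by fun_prop
    rw [← ofReal_integral_eq_lintegral_ofReal]
    · congr 1
      rw [← intervalIntegral.integral_of_le h]
      have h3 : ∫ t in (0 : ℝ)..s, (max (s - t) 0) ^ n = ∫ t in (0 : ℝ)..s, (s - t) ^ n := by
        apply intervalIntegral.integral_congr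
        intro t ht
        rw [uIcc_of_le h] at ht
        change (max (s - t) 0) ^ n = (s - t) ^ n
        rw [max_eq_left (by linarith [ht.2])]
      rw [h3, intervalIntegral.integral_comp_sub_left (fun x => x ^ n) s, integral_pow]
      simp
    · exact (hc.integrableOn_Icc (a := 0) (b := s)).mono_set Ioc_subset_Icc_self
    · exact Filter.Eventually.of_forall fun t => pow_nonneg (le_max_right _ _) n

/-- `∫ (s - dl b y)⁺ dy` -/
theorem lint1 (b s : ℝ) :
    ∫⁻ y, ENNReal.ofReal (s - dl b y) =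
      ENNReal.ofReal (|b| * max s 0 + (max s 0) ^ 2) := by
  rw [lint_dl b (fun t => ENNReal.ofReal (s - t)) (by fun_prop)]
  have h := lint_pow 1 one_ne_zero s
  have h1 : ∀ t : ℝ, ENNReal.ofReal ((max (s - t) 0) ^ 1) = ENNReal.ofReal (s - t) := by
    intro t
    rw [pow_one, ENNReal.ofReal_max, ENNReal.ofReal_zero, max_eq_left zero_le]
  simp only [h1] at h
  have h2 : ENNReal.ofReal s = ENNReal.ofReal (max s 0) := by
    rw [ENNReal.ofReal_max, ENNReal.ofReal_zero, max_eq_left (zero_le (a := ENNReal.ofReal s))]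
  rw [h, sub_zero, h2, ENNReal.ofReal_add (by positivity) (by positivity),
    ENNReal.ofReal_mul (abs_nonneg b)]
  congr 1
  rw [show (2 : ℝ≥0∞) = ENNReal.ofReal 2 by simp, ← ENNReal.ofReal_mul (by norm_num)]
  congr 1
  norm_num
  ring

/-- `∫∫ (s - dl a x - dl b y)⁺ dy dx` -/
theorem lint2 (a b s : ℝ) :
    ∫⁻ x, ∫⁻ y, ENNReal.ofReal (s - dl a x - dl b y) =
      ENNReal.ofReal (|a| * |b| * max s 0 + (|a| + |b|) * (max s 0) ^ 2 +
        2 / 3 * (max s 0) ^ 3) := by
  simp only [lint1]
  rw [lint_dl a (fun t => ENNReal.ofReal (|b| * max (s - t) 0 + (max (s - t) 0) ^ 2))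
    (by fun_prop)]
  have h1 : ∫⁻ t in Ioi (0 : ℝ), ENNReal.ofReal (|b| * max (s - t) 0 + (max (s - t) 0) ^ 2) =
      ENNReal.ofReal |b| * ENNReal.ofReal ((max s 0) ^ 2 / 2) +
        ENNReal.ofReal ((max s 0) ^ 3 / 3) := by
    have e : ∀ t : ℝ, ENNReal.ofReal (|b| * max (s - t) 0 + (max (s - t) 0) ^ 2) =
        ENNReal.ofReal |b| * ENNReal.ofReal ((max (s - t) 0) ^ 1) +
          ENNReal.ofReal ((max (s - t) 0) ^ 2) := by
      intro t
      rw [ENNReal.ofReal_add (by positivity) (by positivity),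
        ENNReal.ofReal_mul (abs_nonneg b), pow_one]
    simp only [e]
    rw [lintegral_add_left (by fun_prop), lintegral_const_mul _ (by fun_prop),
      lint_pow 1 one_ne_zero, lint_pow 2 two_ne_zero]
    norm_num
  rw [h1, sub_zero, ← ENNReal.ofReal_mul (abs_nonneg a), ← ENNReal.ofReal_mul (abs_nonneg b),
    ← ENNReal.ofReal_add (by positivity) (by positivity),
    show (2 : ℝ≥0∞) = ENNReal.ofReal 2 by simp, ← ENNReal.ofReal_mul (by norm_num),
    ← ENNReal.ofReal_add (by positivity) (by positivity)]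
  congr 1
  ring

end Pool.Agent.Helper53.TS
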